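import Pool.Agent.Helper47.UG.Stmts

set_option autoImplicit false

namespace Pool.Agent.Helper47.UG

open Finset
open scoped Classical
open Pool.Agent.Helper17.SO (PP LL)
open Pool.Agent.Helper37.DG (box sbox hit Free sw Spl PD)

theorem cmb_card_le {N M : ℕ} {P : Finset (ℤ × ℤ)} (h : P ⊆ box N M) : P.card ≤ N * M := by
  have h1 := Finset.card_le_card h
  simpa [Pool.Agent.Helper37.DG.box] using h1

theorem cmb_cF_pos {A B C : ℝ} {P : Finset (ℤ × ℤ)} (h : 2 ≤ P.card) : 1 ≤ cF A B C P := by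
  obtain ⟨a, ha, b, hb, hab⟩ := Finset.one_lt_card.mp (show 1 < P.card by omega)
  unfold cF
  rw [Nat.succ_le_iff, Finset.card_pos]
  exact ⟨_, Finset.mem_image_of_mem _ (Finset.mem_offDiag.mpr (⟨ha, hb, hab⟩ :
    (a, b).1 ∈ P ∧ (a, b).2 ∈ P ∧ (a, b).1 ≠ (a, b).2))⟩

theorem cmb_Fm_pos {A B C : ℝ} (hA : 0 < A) (hD : 0 < 4 * A * C - B ^ 2) {v : ℤ × ℤ}
    (hv : v ≠ 0) : 0 < Fm A B C v := by
  unfold Fm
  have key : 0 < 4 * A * (A * (v.1 : ℝ) ^ 2 + B * (v.1 : ℝ) * (v.2 : ℝ) + C * (v.2 : ℝ) ^ 2) := by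
    have e : 4 * A * (A * (v.1 : ℝ) ^ 2 + B * (v.1 : ℝ) * (v.2 : ℝ) + C * (v.2 : ℝ) ^ 2) =
        (2 * A * v.1 + B * v.2) ^ 2 + (4 * A * C - B ^ 2) * (v.2 : ℝ) ^ 2 := by ring
    rw [e]
    by_cases h2 : v.2 = 0
    · have h1 : v.1 ≠ 0 := fun h1 => hv (Prod.ext h1 h2)
      have h1' : (v.1 : ℝ) ≠ 0 := by exact_mod_cast h1
      have : 0 < (2 * A * (v.1 : ℝ)) ^ 2 := by positivity
      rw [h2]
      simpa using this
    · have h2' : (v.2 : ℝ) ≠ 0 := by exact_mod_cast h2
      have h3 : 0 < (v.2 : ℝ) ^ 2 := by positivity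
      nlinarith [mul_pos hD h3, sq_nonneg (2 * A * (v.1 : ℝ) + B * v.2)]
  by_contra hcon
  push Not at hcon
  nlinarith [mul_nonneg hA.le (neg_nonneg.mpr hcon)]

theorem cmb_first {A B C : ℝ} {N M : ℕ} {P : Finset (ℤ × ℤ)} (hA : 0 < A)
    (hD : 0 < 4 * A * C - B ^ 2) (hP : P ⊆ box N M) (h2 : 2 ≤ P.card)
    (h : ∀ (s : ℝ) (S : Finset (ℤ × ℤ)), 0 < s → S ⊆ sbox N M → (∀ v ∈ S, Fm A B C v = s) →
      S.card ≤ 4) : P.card ≤ 8 * cF A B C P := by
  obtain ⟨b₀, hb₀⟩ : P.Nonempty := Finset.card_pos.mp (by omega)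
  set S : Finset (ℤ × ℤ) := (P.erase b₀).image (fun v => v - b₀) with hS
  have hcard : S.card = P.card - 1 := by
    rw [hS, Finset.card_image_of_injective _ (sub_left_injective), Finset.card_erase_of_mem hb₀]
  have hsub : S ⊆ sbox N M := by
    intro v hv
    obtain ⟨p, hp, rfl⟩ := Finset.mem_image.mp hv
    have h1 := hP (Finset.mem_of_mem_erase hp)
    have h3 := hP hb₀
    simp only [Pool.Agent.Helper37.DG.box, Finset.mem_product, Finset.mem_Ico] at h1 h3
    simp only [sbox, Finset.mem_product, Finset.mem_Icc, Prod.fst_sub, Prod.snd_sub]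
    omega
  have hne : ∀ v ∈ S, v ≠ 0 := by
    intro v hv
    obtain ⟨p, hp, rfl⟩ := Finset.mem_image.mp hv
    exact sub_ne_zero.mpr (Finset.ne_of_mem_erase hp)
  have h3 : S.card ≤ 4 * (S.image (Fm A B C)).card := by
    apply Finset.card_le_mul_card_image
    intro s hs
    obtain ⟨v, hv, rfl⟩ := Finset.mem_image.mp hs
    apply h (Fm A B C v) _ (cmb_Fm_pos hA hD (hne v hv))
    · exact (Finset.filter_subset _ _).trans hsub
    · intro w hw
      exact (Finset.mem_filter.mp hw).2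
  have h4 : S.image (Fm A B C) ⊆ P.offDiag.image (fun u => Fm A B C (u.1 - u.2)) := by
    intro s hs
    obtain ⟨v, hv, rfl⟩ := Finset.mem_image.mp hs
    obtain ⟨p, hp, rfl⟩ := Finset.mem_image.mp hv
    refine Finset.mem_image.mpr ⟨(p, b₀), ?_, rfl⟩
    rw [Finset.mem_offDiag]
    exact ⟨Finset.mem_of_mem_erase hp, hb₀, Finset.ne_of_mem_erase hp⟩
  have h5 := Finset.card_le_card h4
  unfold cF
  omega

theorem cmb_cF_eq {A B C t : ℝ} {a b c : ℤ} {P : Finset (ℤ × ℤ)} (ht : 0 < t) (hA : A = t * a)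
    (hB : B = t * b) (hC : C = t * c) : cF A B C P = cq a b c P := by
  unfold cF cq
  have h1 : P.offDiag.image (fun u => Fm A B C (u.1 - u.2)) =
      (P.offDiag.image (fun u => qf a b c (u.1 - u.2))).image (fun z : ℤ => t * (z : ℝ)) := by
    rw [Finset.image_image]
    apply Finset.image_congr
    intro u _
    simp only [Fm, qf, Function.comp_apply]
    subst hA hB hC
    push_cast
    ring
  rw [h1]
  apply Finset.card_image_of_injective
  intro x y hxy
  have h2 : (x : ℝ) = y := mul_left_cancel₀ ht.ne' hxy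
  exact_mod_cast h2

theorem st_CMB (hR : ST_RGM) (hT : ST_THN) (hI : ST_DIC) : ST_CMB := by
  intro δ hδ
  obtain ⟨c₁, N₀, hc₁, hR⟩ := hR δ hδ
  obtain ⟨K, hK, hT⟩ := hT
  obtain ⟨N₁, hN₁⟩ := exists_nat_ge (1 / δ ^ 3)
  set N₂ : ℕ := N₀ + N₁ + 1 with hN₂
  have hN₂p : (0 : ℝ) < (N₂ : ℝ) ^ 2 := by
    have : (0 : ℝ) < (N₂ : ℝ) := by rw [hN₂]; positivity
    positivity
  obtain ⟨c₀, hc₀, e1, e2, e3, e4⟩ : ∃ c₀ : ℝ, 0 < c₀ ∧ c₀ ≤ 1 / (N₂ : ℝ) ^ 2 ∧ c₀ ≤ δ / K ∧
      c₀ ≤ 1 / 8 ∧ c₀ ≤ c₁ := by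
    refine ⟨min (min (1 / (N₂ : ℝ) ^ 2) (δ / K)) (min (1 / 8) c₁), ?_, ?_, ?_, ?_, ?_⟩
    · have h1 : 0 < 1 / (N₂ : ℝ) ^ 2 := by positivity
      have h2 : 0 < δ / K := by positivity
      have h3 : (0 : ℝ) < 1 / 8 := by norm_num
      exact lt_min (lt_min h1 h2) (lt_min h3 hc₁)
    · exact (min_le_left _ _).trans (min_le_left _ _)
    · exact (min_le_left _ _).trans (min_le_right _ _)
    · exact (min_le_right _ _).trans (min_le_left _ _)
    · exact (min_le_right _ _).trans (min_le_right _ _)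
  refine ⟨c₀, hc₀, ?_⟩
  intro A B C D N M P hA hD hD2 hDD hMN hP hδP h2
  set m : ℝ := min 1 (Real.sqrt (Real.log D / Real.log P.card)) with hm
  have hm1 : m ≤ 1 := min_le_left _ _
  have hm0 : 0 ≤ m := le_min zero_le_one (Real.sqrt_nonneg _)
  have hn0 : (0 : ℝ) < P.card := by
    have : 0 < P.card := by omega
    exact_mod_cast this
  have hnNM : P.card ≤ N * M := cmb_card_le hP
  have hnN : P.card ≤ N ^ 2 := by
    calc P.card ≤ N * M := hnNM
      _ ≤ N * N := Nat.mul_le_mul_left _ hMN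
      _ = N ^ 2 := by ring
  have hN2 : 2 ≤ N := by
    by_contra hcon
    have h1 : N ≤ 1 := by omega
    have h3 : N ^ 2 ≤ 1 := by
      calc N ^ 2 ≤ 1 ^ 2 := Nat.pow_le_pow_left h1 2
        _ = 1 := by norm_num
    omega
  have hM1 : 1 ≤ M := by
    by_contra hcon
    have : M = 0 := by omega
    subst this
    simp at hnNM
    simp [hnNM] at h2
  -- reduction: it suffices that cg * n <= F
  have hred : ∀ g : ℝ, c₀ ≤ g → g * P.card ≤ cF A B C P → c₀ * P.card * m ≤ cF A B C P := by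
    intro g hg h
    calc c₀ * P.card * m ≤ c₀ * P.card * 1 := by
          apply mul_le_mul_of_nonneg_left hm1
          positivity
      _ = c₀ * P.card := by ring
      _ ≤ g * P.card := mul_le_mul_of_nonneg_right hg hn0.le
      _ ≤ _ := h
  by_cases hNs : N < N₂
  · -- small N
    apply hred _ e1
    have h1 : (P.card : ℝ) ≤ (N₂ : ℝ) ^ 2 := by
      have : P.card ≤ N₂ ^ 2 := hnN.trans (Nat.pow_le_pow_left hNs.le 2)
      exact_mod_cast this
    have h3 : (1 : ℝ) ≤ cF A B C P := by exact_mod_cast cmb_cF_pos h2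
    calc 1 / (N₂ : ℝ) ^ 2 * P.card ≤ 1 / (N₂ : ℝ) ^ 2 * (N₂ : ℝ) ^ 2 := by
          apply mul_le_mul_of_nonneg_left h1
          positivity
      _ = 1 := one_div_mul_cancel hN₂p.ne'
      _ ≤ _ := h3
  push Not at hNs
  by_cases hMs : M ^ 3 ≤ N
  · -- thin boxes
    apply hred _ e2
    have h1 := hT A B C N M P hA hD hM1 hMs hP h2
    have h3 : (0 : ℝ) ≤ cF A B C P := Nat.cast_nonneg _
    have h4 : δ * (P.card : ℝ) ^ 2 ≤ K * P.card * cF A B C P := by
      calc δ * (P.card : ℝ) ^ 2 ≤ δ * (K * ((M : ℝ) * N) * cF A B C P) :=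
            mul_le_mul_of_nonneg_left h1 hδ.le
        _ = (δ * ((M : ℝ) * N)) * (K * cF A B C P) := by ring
        _ ≤ P.card * (K * cF A B C P) := by
            apply mul_le_mul_of_nonneg_right hδP
            positivity
        _ = _ := by ring
    have h5 : δ * (P.card : ℝ) ≤ K * cF A B C P := by
      have h6 : (P.card : ℝ) * (δ * P.card) ≤ P.card * (K * cF A B C P) := by nlinarith
      exact le_of_mul_le_mul_left h6 hn0
    rw [div_mul_eq_mul_div, div_le_iff₀ hK]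
    nlinarith
  push Not at hMs
  rcases hI A B C N M hA hD hMN with h | ⟨t, a, b, c, ht, hpos, hprm, ha, hb, hc, eA, eB, eC⟩
  · apply hred _ e3
    have h1 := cmb_first hA hD hP h2 h
    have h3 : (P.card : ℝ) ≤ 8 * cF A B C P := by exact_mod_cast h1
    linarith
  · have hNN₀ : N₀ ≤ N := by omega
    have h1 := hR N M a b c P hNN₀ hMN hMs.le hP hδP hpos hprm ha hb hc
    rw [← cmb_cF_eq ht eA eB eC] at h1
    have hds := hDD t a b c eA eB eC
    have hDn : D ≤ (Dn a b c : ℝ) := by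
      have h3 : ((Dn a b c : ℕ) : ℤ) = ds a b c := by
        unfold Dn
        exact Int.toNat_of_nonneg hpos.2.le
      have h4 : ((Dn a b c : ℕ) : ℝ) = 4 * a * c - b ^ 2 := by
        have h5 : ((Dn a b c : ℕ) : ℝ) = ((ds a b c : ℤ) : ℝ) := by exact_mod_cast h3
        rw [h5]
        unfold ds
        push_cast
        ring
      rw [h4]
      exact hds.le
    -- N <= n
    have hNn : (N : ℝ) ≤ P.card := by
      have hMδ : 1 ≤ δ * M := by
        by_contra hcon
        push Not at hcon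
        have hM0 : (0 : ℝ) ≤ δ * M := by positivity
        have h3 : (δ * M) ^ 3 < 1 := pow_lt_one₀ hM0 hcon (by norm_num)
        have h4 : (N : ℝ) ≤ (M : ℝ) ^ 3 := by exact_mod_cast hMs.le
        have h5 : (N₁ : ℝ) ≤ N := by
          have : N₁ ≤ N := by omega
          exact_mod_cast this
        have h6 : 1 / δ ^ 3 ≤ (M : ℝ) ^ 3 := hN₁.trans (h5.trans h4)
        have h7 : 1 ≤ (M : ℝ) ^ 3 * δ ^ 3 := by
          rwa [div_le_iff₀ (by positivity)] at h6
        have h8 : (δ * M) ^ 3 = (M : ℝ) ^ 3 * δ ^ 3 := by ring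
        linarith
      calc (N : ℝ) = 1 * N := by ring
        _ ≤ (δ * M) * N := by
            apply mul_le_mul_of_nonneg_right hMδ
            positivity
        _ = δ * ((M : ℝ) * N) := by ring
        _ ≤ _ := hδP
    have hN1 : (1 : ℝ) < N := by
      have : 1 < N := by omega
      exact_mod_cast this
    have hlogN : 0 < Real.log N := Real.log_pos hN1
    have hlogn : Real.log N ≤ Real.log P.card := Real.log_le_log (by linarith) hNn
    have hlogD : Real.log D ≤ Real.log (Dn a b c) := Real.log_le_log (by linarith) hDn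
    have hlogD0 : 0 ≤ Real.log D := Real.log_nonneg (by linarith)
    have hdiv : Real.log D / Real.log P.card ≤ Real.log (Dn a b c) / Real.log N :=
      div_le_div₀ (hlogD0.trans hlogD) hlogD hlogN hlogn
    have hsq : m ≤ Real.sqrt (Real.log (Dn a b c) / Real.log N) :=
      (min_le_right _ _).trans (Real.sqrt_le_sqrt hdiv)
    calc c₀ * P.card * m ≤ c₁ * P.card * Real.sqrt (Real.log (Dn a b c) / Real.log N) := by
          apply mul_le_mul _ hsq hm0 (by positivity)
          exact mul_le_mul_of_nonneg_right e4 hn0.le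
      _ = c₁ * Real.sqrt (Real.log (Dn a b c) / Real.log N) * P.card := by ring
      _ ≤ _ := h1

end Pool.Agent.Helper47.UG
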